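import Pool.Agent.P.MP_f72ff1_an.Main

/-!
# The lacunary bilinear spherical maximal function is unbounded on the edge `p = 1`

For every `d ≥ 1` and every real `q ≥ 1`, the lacunary bilinear spherical maximal function is not
bounded from `L^1 × L^q` to `L^r` with `1/r = 1 + 1/q`, that is `r = q/(q+1)`, not even on
smooth compactly supported functions.  The case `q = 1` is Q1 and the case `q = 1 + ε` is Q2.
-/

open scoped ENNReal NNReal

namespace Pool.Agent.Results.MP_f72ff1_an.EdgeUnbounded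

open Pool.Agent.P.MP_f72ff1_an

theorem result (d : ℕ) (hd : 1 ≤ d) (q : ℝ) (hq : 1 ≤ q) :
    ¬ ∃ C : ℝ≥0, ∀ f g : EuclideanSpace ℝ (Fin d) → ℝ, IsTest f → IsTest g →
      lpNorm (q / (q + 1)) (lacMax f g) ≤
        C * lpNorm 1 (fun x => ‖f x‖ₑ) * lpNorm q (fun x => ‖g x‖ₑ) :=
  not_bounded' hd hq

end Pool.Agent.Results.MP_f72ff1_an.EdgeUnbounded
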